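import Mathlib

/-! Specification of the pieces for MP_1774d7_an (Okamoto polynomials, 3N at most 2m). -/

set_option autoImplicit false

namespace Pool.Agent.V7H85.OK

open Polynomial Finset Matrix

/-- the number of changes of the first `n` signs. -/
def chg (n : ℕ) (σ : ℕ → Bool) : ℕ := ((range (n - 1)).filter fun i => σ i ≠ σ (i + 1)).card

/-- `σ` is a pattern of signs for the first `n` values of `x`; the sign of zero is free. -/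
def Comp (n : ℕ) (x : ℕ → ℝ) (σ : ℕ → Bool) : Prop :=
  ∀ i < n, (σ i = true → 0 ≤ x i) ∧ (σ i = false → x i ≤ 0)

/-- extension of a vector by zero -/
def ext {w : ℕ} (x : Fin w → ℝ) (i : ℕ) : ℝ := if h : i < w then x ⟨i, h⟩ else 0

/-- the possible numbers of sign changes of a vector. -/
def Ch {w : ℕ} (x : Fin w → ℝ) : Set ℕ := {c | ∃ σ, Comp w (ext x) σ ∧ chg w σ = c}

/-- the matrix increases the number of sign changes. -/
def Mono {w : ℕ} (M : Matrix (Fin w) (Fin w) ℝ) : Prop :=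
  ∀ x : Fin w → ℝ, x ≠ 0 → ∀ c ∈ Ch x, ∀ c' ∈ Ch (M *ᵥ x), c ≤ c'

/-- piece CHP: properties of `Ch` -/
def S_CHP : Prop := ∀ (w : ℕ) (x : Fin w → ℝ), (Ch x).Nonempty ∧ (∀ c ∈ Ch x, c ≤ w) ∧
  (∃ ε > 0, ∀ y : Fin w → ℝ, (∀ i, |y i - x i| < ε) → Ch y ⊆ Ch x) ∧
  (∀ a : ℝ, a ≠ 0 → Ch (a • x) = Ch x) ∧
  (∀ h : 2 ≤ w, x ⟨0, by omega⟩ = 0 → ∃ c ∈ Ch x, ∃ c' ∈ Ch x, c < c')

/-- piece POLY -/
def S_POLY : Prop := ∀ (n : ℕ) (t : ℕ → ℝ) (p : ℝ[X]) (σ : ℕ → Bool), p ≠ 0 →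
  (∀ i j, i < j → j < n → t i < t j) → Comp n (fun i => p.eval (t i)) σ → chg n σ ≤ p.natDegree

/-- piece ALT -/
def S_ALT : Prop := S_POLY → ∀ (w : ℕ) (s t r d : ℕ → ℝ) (p : ℝ[X]) (x y : Fin w → ℝ), p ≠ 0 →
  p.natDegree < w → (∀ i j, i < j → j < w → s i < s j) → (∀ i j, i < j → j < w → t i < t j) →
  (∀ i j, i < w → j < w → s i < t j) → (∀ i < w, 0 < r i) → (∀ i, i + 1 < w → d i * d (i + 1) < 0) →
  (∀ i : Fin w, x i = r i * p.eval (t i)) → (∀ i : Fin w, y i = d i * p.eval (s i)) →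
  ∀ c ∈ Ch x, ∀ c' ∈ Ch y, c ≤ c'

/-- piece DYN: no invariant planes with eigenvalues of the same modulus -/
def S_DYN : Prop := S_CHP → ∀ (w : ℕ) (M : Matrix (Fin w) (Fin w) ℝ), Mono M →
  (∀ (p q : Fin w → ℝ) (l : ℝ), l ≠ 0 → LinearIndependent ℝ ![p, q] → M *ᵥ p = l • p →
    M *ᵥ q = l • q → False) ∧
  (∀ (p q : Fin w → ℝ) (l : ℝ), l ≠ 0 → p ≠ 0 → M *ᵥ p = l • p → M *ᵥ q = l • q + p → False) ∧
  (∀ (a b : Fin w → ℝ) (α β : ℝ), β ≠ 0 → (a ≠ 0 ∨ b ≠ 0) → M *ᵥ a = α • a - β • b →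
    M *ᵥ b = β • a + α • b → False)

/-- piece SPEC: from `DYN` to the characteristic polynomial -/
def S_SPEC : Prop := ∀ (w : ℕ) (M : Matrix (Fin w) (Fin w) ℝ),
  (∀ (p q : Fin w → ℝ) (l : ℝ), l ≠ 0 → LinearIndependent ℝ ![p, q] → M *ᵥ p = l • p →
    M *ᵥ q = l • q → False) →
  (∀ (p q : Fin w → ℝ) (l : ℝ), l ≠ 0 → p ≠ 0 → M *ᵥ p = l • p → M *ᵥ q = l • q + p → False) →
  (∀ (a b : Fin w → ℝ) (α β : ℝ), β ≠ 0 → (a ≠ 0 ∨ b ≠ 0) → M *ᵥ a = α • a - β • b →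
    M *ᵥ b = β • a + α • b → False) →
  ∀ z : ℂ, z ≠ 0 → (M.map Complex.ofReal).charpoly.IsRoot z →
    z.im = 0 ∧ ¬ (derivative (M.map Complex.ofReal).charpoly).IsRoot z

/-- the polynomial `p_n` for the parameter `m`: the coefficient of `ε ^ n` in
`exp (ε ^ m + z ε)`. -/
noncomputable def pm (m n : ℕ) : ℂ[X] :=
  ∑ a ∈ range (n + 1), if m * a ≤ n then
    C ((((n - m * a).factorial : ℂ) * (a.factorial : ℂ))⁻¹) * X ^ (n - m * a) else 0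

/-- the matrix `(p_(3 i + c - j))`, `0 ≤ i, j < N`; polynomials of negative index are zero. -/
noncomputable def PM (m c N : ℕ) : Matrix (Fin N) (Fin N) ℂ[X] :=
  fun i j => if (j : ℕ) ≤ 3 * i + c then pm m (3 * i + c - j) else 0

/-- the matrix `T` -/
noncomputable def TM (m c k w : ℕ) : Matrix (Fin w) (Fin w) ℝ := fun i j =>
  ((3 * (k + i) + c).factorial : ℝ) / ((3 * (k + i) + c - m).factorial : ℝ) *
    (Lagrange.basis (univ : Finset (Fin (k + w))) (fun l => 3 * (l : ℝ) + c)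
      (Fin.natAdd k j)).eval (3 * ((k : ℝ) + (i : ℝ)) + c - m)

/-- piece MT: the matrix `T` is monotone if three does not divide `m` -/
def S_MT : Prop := S_POLY → S_ALT → ∀ (m c k w : ℕ), 1 ≤ c → c ≤ 2 → ¬ 3 ∣ m →
  (∀ i < k, 3 * i + c < m) → (∀ i < w, m ≤ 3 * (k + i) + c) → (∀ i < w, 3 * (k + i) + c < 2 * m) →
  Mono (TM m c k w)

/-- piece DET1: `det (1 + y T)` and the matrix with the entries
`1/(b_i - j)! + y / (b_i - m - j)!`, `b_i = 3 i + c` -/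
noncomputable def EM (m c N : ℕ) (y : ℂ) : Matrix (Fin N) (Fin N) ℂ := fun i j =>
  ((3 * i + c).descFactorial j : ℂ) / ((3 * i + c).factorial : ℂ) +
    if m ≤ 3 * i + c then y * (((3 * i + c - m).descFactorial j : ℂ) /
      ((3 * i + c - m).factorial : ℂ)) else 0

def S_DET1 : Prop := ∀ (m c k w : ℕ), (∀ i < k, 3 * i + c < m) → (∀ i < w, m ≤ 3 * (k + i) + c) →
  ∃ B : ℂ, B ≠ 0 ∧ ∀ y : ℂ, (EM m c (k + w) y).det =
    B * (1 + y • (TM m c k w).map Complex.ofReal).det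

/-- piece DET2 -/
def S_DET2 : Prop := ∀ (m c N : ℕ), 1 ≤ m → (∀ i < N, 3 * i + c < 2 * m) →
  ∃ K : ℕ, ∀ z : ℂ, z ≠ 0 → (PM m c N).det.eval z = z ^ K * (EM m c N ((z ^ m)⁻¹)).det

end Pool.Agent.V7H85.OK
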