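import Pool.Agent.V7H85.OK.Spec

/-! Piece DET2. -/

set_option autoImplicit false

namespace Pool.Agent.V7H85.OK

open Polynomial Finset Matrix

theorem pm_eval {m n : ℕ} (_hm : 1 ≤ m) (hn : n < 2 * m) (z : ℂ) :
    (pm m n).eval z = ((n.factorial : ℂ))⁻¹ * z ^ n +
      if m ≤ n then (((n - m).factorial : ℂ))⁻¹ * z ^ (n - m) else 0 := by
  have h0 : ∀ a : ℕ, eval z (if m * a ≤ n then
      C ((((n - m * a).factorial : ℂ) * (a.factorial : ℂ))⁻¹) * X ^ (n - m * a) else 0 : ℂ[X]) =
      if m * a ≤ n then (((n - m * a).factorial : ℂ) * (a.factorial : ℂ))⁻¹ * z ^ (n - m * a)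
        else 0 := by
    intro a
    split_ifs
    · rw [eval_mul, eval_C, eval_pow, eval_X]
    · exact eval_zero
  rw [pm, eval_finsetSum, Finset.sum_congr rfl fun a _ => h0 a]
  by_cases h : m ≤ n
  · rw [if_pos h, ← Finset.sum_subset (s₁ := {0, 1})]
    · rw [Finset.sum_pair (by norm_num)]
      simp [h]
    · intro a ha
      simp only [Finset.mem_insert, Finset.mem_singleton] at ha
      rw [Finset.mem_range]
      omega
    · intro a _ ha
      simp only [Finset.mem_insert, Finset.mem_singleton, not_or] at ha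
      rw [if_neg]
      have h2 : 2 ≤ a := by omega
      have h3 := Nat.mul_le_mul_left m h2
      omega
  · rw [if_neg h, add_zero, Finset.sum_eq_single 0]
    · simp
    · intro a _ ha
      rw [if_neg]
      have h2 : 1 ≤ a := by omega
      have h3 := Nat.mul_le_mul_left m h2
      omega
    · intro h1
      exact absurd (Finset.mem_range.2 (by omega)) h1

theorem desc_div {n j : ℕ} (h : j ≤ n) :
    ((n.descFactorial j : ℕ) : ℂ) / (n.factorial : ℂ) = (((n - j).factorial : ℕ) : ℂ)⁻¹ := by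
  have h1 := Nat.factorial_mul_descFactorial h
  have h2 : (((n - j).factorial : ℕ) : ℂ) * (n.descFactorial j : ℕ) = (n.factorial : ℕ) := by
    exact_mod_cast h1
  have h3 : (((n - j).factorial : ℕ) : ℂ) ≠ 0 := by
    exact_mod_cast Nat.factorial_ne_zero _
  have h4 : ((n.factorial : ℕ) : ℂ) ≠ 0 := by
    exact_mod_cast Nat.factorial_ne_zero _
  rw [div_eq_iff h4, ← h2]
  field_simp

theorem entry {m c N : ℕ} (hm : 1 ≤ m) (h : ∀ i < N, 3 * i + c < 2 * m) (z : ℂ) (hz : z ≠ 0)
    (i j : Fin N) : (PM m c N i j).eval z =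
      (z⁻¹) ^ (j : ℕ) * (z ^ (3 * (i : ℕ) + c) * EM m c N ((z ^ m)⁻¹) i j) := by
  have hi := h i i.2
  have hcancel : ∀ a b : ℕ, b ≤ a → z ^ a * (z ^ b)⁻¹ = z ^ (a - b) := fun a b hab =>
    (pow_sub₀ z hz hab).symm
  show (if (j : ℕ) ≤ 3 * i + c then pm m (3 * i + c - j) else 0 : ℂ[X]).eval z =
    (z⁻¹) ^ (j : ℕ) * (z ^ (3 * (i : ℕ) + c) *
      (((3 * (i : ℕ) + c).descFactorial j : ℂ) / ((3 * (i : ℕ) + c).factorial : ℂ) +
        if m ≤ 3 * (i : ℕ) + c then (z ^ m)⁻¹ * (((3 * (i : ℕ) + c - m).descFactorial j : ℂ) /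
          ((3 * (i : ℕ) + c - m).factorial : ℂ)) else 0))
  generalize hn : 3 * (i : ℕ) + c = n at *
  generalize (j : ℕ) = j
  rw [inv_pow]
  by_cases hj : j ≤ n
  · rw [if_pos hj, pm_eval hm (by omega), desc_div hj]
    by_cases hmn : m ≤ n
    · rw [if_pos hmn]
      by_cases hmj : m ≤ n - j
      · rw [if_pos hmj, desc_div (by omega : j ≤ n - m), ← hcancel n j hj]
        have e1 : n - j - m = n - m - j := by omega
        rw [e1, ← hcancel (n - m) j (by omega), ← hcancel n m hmn]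
        ring
      · have h1 : (n - m).descFactorial j = 0 := Nat.descFactorial_eq_zero_iff_lt.2 (by omega)
        rw [if_neg hmj, h1, ← hcancel n j hj]
        push_cast
        ring
    · rw [if_neg hmn, if_neg (by omega), ← hcancel n j hj]
      ring
  · have h1 : n.descFactorial j = 0 := Nat.descFactorial_eq_zero_iff_lt.2 (by omega)
    have h2 : (n - m).descFactorial j = 0 := Nat.descFactorial_eq_zero_iff_lt.2 (by omega)
    rw [if_neg hj, h1, h2, eval_zero]
    split_ifs <;> simp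

theorem t_DET2 : S_DET2 := by
  intro m c N hm h
  refine ⟨∑ i : Fin N, (2 * (i : ℕ) + c), fun z hz => ?_⟩
  have h1 : (PM m c N).det.eval z = ((evalRingHom z).mapMatrix (PM m c N)).det := by
    rw [← RingHom.map_det, coe_evalRingHom]
  have h2 : (evalRingHom z).mapMatrix (PM m c N) = Matrix.of fun i j : Fin N =>
      (z⁻¹) ^ (j : ℕ) * (Matrix.of (fun i j : Fin N =>
        z ^ (3 * (i : ℕ) + c) * EM m c N ((z ^ m)⁻¹) i j)) i j := by
    ext i j
    exact entry hm h z hz i j
  rw [h1, h2, Matrix.det_mul_row, Matrix.det_mul_column, ← mul_assoc, ← Finset.prod_mul_distrib,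
    ← Finset.prod_pow_eq_pow_sum]
  congr 1
  refine Finset.prod_congr rfl fun i _ => ?_
  rw [inv_pow, mul_comm, ← pow_sub₀ z hz (by omega)]
  congr 1
  omega

end Pool.Agent.V7H85.OK
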