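import Pool.Agent.V7H85.OK.Spec

/-! Piece MT. -/

set_option autoImplicit false

namespace Pool.Agent.V7H85.OK

open Polynomial Finset Matrix

theorem lam_alt (m c k w i : ℕ) (hc1 : 1 ≤ c) (hc2 : c ≤ 2) (h3 : ¬ 3 ∣ m)
    (h2 : ∀ i < w, m ≤ 3 * (k + i) + c) (h4 : ∀ i < w, 3 * (k + i) + c < 2 * m)
    (hi : i + 1 < w) :
    (∏ l ∈ range k, (3 * ((k : ℝ) + i) + c - m - (3 * (l : ℝ) + c))) *
      (∏ l ∈ range k, (3 * ((k : ℝ) + (i + 1 : ℕ)) + c - m - (3 * (l : ℝ) + c))) < 0 := by
  rw [← Finset.prod_mul_distrib]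
  obtain ⟨q, e, hm, he1, he2⟩ : ∃ q e : ℕ, m = 3 * q + e ∧ 1 ≤ e ∧ e ≤ 2 :=
    ⟨m / 3, m % 3, by omega, by omega, by omega⟩
  have ha := h2 i (by omega)
  have hb := h4 (i + 1) hi
  obtain ⟨l0, hl0⟩ : ∃ l0 : ℕ, l0 + q = k + i := ⟨k + i - q, by omega⟩
  have hl0k : l0 < k := by
    by_contra h
    have h5 := h2 (l0 - k) (by omega)
    omega
  have hmR : (m : ℝ) = 3 * q + e := by exact_mod_cast hm
  have hlR : (l0 : ℝ) + q = k + i := by exact_mod_cast hl0
  have he1R : (1 : ℝ) ≤ e := by exact_mod_cast he1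
  have he2R : (e : ℝ) ≤ 2 := by exact_mod_cast he2
  rw [← Finset.mul_prod_erase _ _ (Finset.mem_range.2 hl0k)]
  refine mul_neg_of_neg_of_pos ?_ (Finset.prod_pos fun l hl => ?_)
  · refine mul_neg_of_neg_of_pos ?_ ?_
    · linarith
    · push_cast
      linarith
  · rw [Finset.mem_erase, Finset.mem_range] at hl
    rcases Nat.lt_or_gt_of_ne hl.1 with h | h
    · have h5 : (l : ℝ) + 1 ≤ l0 := by exact_mod_cast h
      refine mul_pos ?_ ?_
      · linarith
      · push_cast
        linarith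
    · have h5 : (l0 : ℝ) + 1 ≤ l := by exact_mod_cast h
      refine mul_pos_of_neg_of_neg ?_ ?_
      · linarith
      · push_cast
        linarith

theorem t_MT : S_MT := by
  intro hPOLY hALT m c k w hc1 hc2 h3 h1 h2 h4 x hx
  set v : Fin (k + w) → ℝ := fun l => 3 * (l : ℝ) + c with hv
  have hvinj : Function.Injective v := by
    intro a b hab
    have : (a : ℝ) = b := by
      have h5 : 3 * (a : ℝ) + c = 3 * (b : ℝ) + c := hab
      linarith
    exact Fin.ext (by exact_mod_cast this)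
  set P : ℝ[X] := ∑ j : Fin w, C (x j) * Lagrange.basis univ v (Fin.natAdd k j) with hP
  have hPr : ∀ j : Fin w, P.eval (v (Fin.natAdd k j)) = x j := by
    intro j
    rw [hP, eval_finsetSum, Finset.sum_eq_single j]
    · rw [eval_mul, eval_C, Lagrange.eval_basis_self hvinj.injOn (Finset.mem_univ _), mul_one]
    · intro b _ hb
      rw [eval_mul, eval_C, Lagrange.eval_basis_of_ne (fun h => hb ?_) (Finset.mem_univ _),
        mul_zero]
      exact Fin.natAdd_injective _ _ h
    · intro h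
      exact absurd (Finset.mem_univ _) h
  have hPl : ∀ l : ℕ, l < k → P.eval (3 * (l : ℝ) + c) = 0 := by
    intro l hl
    have e : (3 * (l : ℝ) + c) = v (Fin.castAdd w ⟨l, hl⟩) := rfl
    rw [e, hP, eval_finsetSum]
    refine Finset.sum_eq_zero fun j _ => ?_
    rw [eval_mul, eval_C, Lagrange.eval_basis_of_ne (fun h => ?_) (Finset.mem_univ _), mul_zero]
    have h5 := congrArg Fin.val h
    simp only [Fin.val_natAdd, Fin.val_castAdd] at h5
    omega
  have hPdeg : P.degree < ((k + w : ℕ) : WithBot ℕ) := by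
    rw [hP]
    refine (degree_sum_le _ _).trans_lt ?_
    rw [Finset.sup_lt_iff (WithBot.bot_lt_coe _)]
    intro j _
    refine (degree_mul_le _ _).trans_lt ?_
    have h5 : (Lagrange.basis univ v (Fin.natAdd k j)).degree = ((k + w - 1 : ℕ) : WithBot ℕ) := by
      rw [Lagrange.degree_basis hvinj.injOn (Finset.mem_univ _), Finset.card_univ, Fintype.card_fin]
    have h6 : (C (x j)).degree ≤ 0 := degree_C_le
    have hj := j.2
    calc (C (x j)).degree + (Lagrange.basis univ v (Fin.natAdd k j)).degree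
        ≤ 0 + ((k + w - 1 : ℕ) : WithBot ℕ) := by rw [h5]; exact add_le_add h6 le_rfl
      _ < _ := by
        rw [zero_add]
        exact_mod_cast (by omega : k + w - 1 < k + w)
  set L : ℝ[X] := ∏ l ∈ range k, (X - C (3 * (l : ℝ) + c)) with hL
  have hLdvd : L ∣ P := by
    rw [hL]
    refine Finset.prod_dvd_of_coprime ?_ ?_
    · intro a _ b _ hab
      refine isCoprime_X_sub_C_of_isUnit_sub ?_
      rw [isUnit_iff_ne_zero]
      intro h
      apply hab
      have : (a : ℝ) = b := by linarith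
      exact_mod_cast this
    · intro l hl
      exact dvd_iff_isRoot.2 (hPl l (Finset.mem_range.1 hl))
  obtain ⟨p, hp⟩ := hLdvd
  have hx' : ∃ j, x j ≠ 0 := by
    by_contra h
    push Not at h
    exact hx (funext h)
  obtain ⟨j0, hj0⟩ := hx'
  have hP0 : P ≠ 0 := by
    intro h
    apply hj0
    rw [← hPr j0, h, eval_zero]
  have hp0 : p ≠ 0 := by
    rintro rfl
    exact hP0 (by rw [hp, mul_zero])
  have hL0 : L ≠ 0 := by
    intro h
    exact hP0 (by rw [hp, h, zero_mul])
  have hLdeg : L.natDegree = k := by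
    rw [hL, natDegree_prod_of_monic _ _ fun l _ => monic_X_sub_C _]
    simp only [natDegree_X_sub_C, sum_const, card_range, smul_eq_mul, mul_one]
  have hpdeg : p.natDegree < w := by
    have h5 : P.natDegree < k + w := by
      rw [natDegree_lt_iff_degree_lt hP0]
      exact hPdeg
    rw [hp, natDegree_mul hL0 hp0, hLdeg] at h5
    omega
  have hLe : ∀ a : ℝ, L.eval a = ∏ l ∈ range k, (a - (3 * (l : ℝ) + c)) := by
    intro a
    rw [hL, eval_prod]
    refine Finset.prod_congr rfl fun l _ => ?_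
    rw [eval_sub, eval_X, eval_C]
  refine hALT hPOLY w (fun i => 3 * ((k : ℝ) + i) + c - m) (fun i => 3 * ((k : ℝ) + i) + c)
    (fun i => L.eval (3 * ((k : ℝ) + i) + c))
    (fun i => ((3 * (k + i) + c).factorial : ℝ) / ((3 * (k + i) + c - m).factorial : ℝ) *
      L.eval (3 * ((k : ℝ) + i) + c - m)) p x _ hp0 hpdeg ?_ ?_ ?_ ?_ ?_ ?_ ?_
  · intro i j hij _
    have : (i : ℝ) < j := by exact_mod_cast hij
    show 3 * ((k : ℝ) + i) + c - m < 3 * ((k : ℝ) + j) + c - m
    linarith
  · intro i j hij _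
    have : (i : ℝ) < j := by exact_mod_cast hij
    show 3 * ((k : ℝ) + i) + c < 3 * ((k : ℝ) + j) + c
    linarith
  · intro i j hi hj
    have h5 : ((3 * (k + i) + c : ℕ) : ℝ) < ((2 * m : ℕ) : ℝ) := by exact_mod_cast h4 i hi
    have h6 : ((m : ℕ) : ℝ) ≤ ((3 * (k + j) + c : ℕ) : ℝ) := by exact_mod_cast h2 j hj
    push_cast at h5 h6
    show 3 * ((k : ℝ) + i) + c - m < 3 * ((k : ℝ) + j) + c
    linarith
  · intro i _
    show 0 < L.eval (3 * ((k : ℝ) + i) + c)
    rw [hLe]
    refine Finset.prod_pos fun l hl => ?_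
    have h5 : (l : ℝ) + 1 ≤ k := by exact_mod_cast Finset.mem_range.1 hl
    have h6 : (0 : ℝ) ≤ i := Nat.cast_nonneg i
    linarith
  · intro i hi
    have h5 := lam_alt m c k w i hc1 hc2 h3 h2 h4 hi
    rw [← hLe, ← hLe] at h5
    have h6 : (0 : ℝ) < ((3 * (k + i) + c).factorial : ℝ) / ((3 * (k + i) + c - m).factorial : ℝ) :=
      div_pos (by exact_mod_cast Nat.factorial_pos _) (by exact_mod_cast Nat.factorial_pos _)
    have h7 : (0 : ℝ) < ((3 * (k + (i + 1)) + c).factorial : ℝ) /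
        ((3 * (k + (i + 1)) + c - m).factorial : ℝ) :=
      div_pos (by exact_mod_cast Nat.factorial_pos _) (by exact_mod_cast Nat.factorial_pos _)
    show ((3 * (k + i) + c).factorial : ℝ) / ((3 * (k + i) + c - m).factorial : ℝ) *
      L.eval (3 * ((k : ℝ) + i) + c - m) * (((3 * (k + (i + 1)) + c).factorial : ℝ) /
        ((3 * (k + (i + 1)) + c - m).factorial : ℝ) *
          L.eval (3 * ((k : ℝ) + (i + 1 : ℕ)) + c - m)) < 0
    have h8 := mul_neg_of_pos_of_neg (mul_pos h6 h7) h5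
    nlinarith [h8]
  · intro i
    show x i = L.eval (3 * ((k : ℝ) + i) + c) * p.eval (3 * ((k : ℝ) + i) + c)
    rw [← eval_mul, ← hp, ← hPr i]
    congr 1
    show 3 * ((Fin.natAdd k i : Fin (k + w)) : ℝ) + c = _
    rw [Fin.val_natAdd]
    push_cast
    ring
  · intro i
    show (TM m c k w *ᵥ x) i = ((3 * (k + i) + c).factorial : ℝ) /
      ((3 * (k + i) + c - m).factorial : ℝ) * L.eval (3 * ((k : ℝ) + i) + c - m) *
        p.eval (3 * ((k : ℝ) + i) + c - m)
    rw [mul_assoc, ← eval_mul, ← hp, hP, eval_finsetSum, Finset.mul_sum]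
    show ∑ j, TM m c k w i j * x j = _
    refine Finset.sum_congr rfl fun j _ => ?_
    rw [eval_mul, eval_C]
    show ((3 * (k + i) + c).factorial : ℝ) / ((3 * (k + i) + c - m).factorial : ℝ) *
      (Lagrange.basis (univ : Finset (Fin (k + w))) (fun l => 3 * (l : ℝ) + c)
      (Fin.natAdd k j)).eval (3 * ((k : ℝ) + (i : ℝ)) + c - m) * x j = _
    rw [← hv]
    ring

end Pool.Agent.V7H85.OK
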