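import Pool.Agent.V7H85.OK.Spec

/-! Piece SPEC. -/

set_option autoImplicit false

namespace Pool.Agent.V7H85.OK

open Polynomial Finset Matrix

theorem t_SPEC : S_SPEC := by
  intro w M hA hB hC z hz hroot
  have him : z.im = 0 := by
    have h1 : (Matrix.scalar (Fin w) z - M.map Complex.ofReal).det = 0 := by
      rw [← Matrix.eval_charpoly]
      exact hroot
    obtain ⟨v, hv, hv'⟩ := Matrix.exists_mulVec_eq_zero_iff.2 h1
    have h2 : ∀ i, ∑ j, ((M i j : ℝ) : ℂ) * v j = z * v i := by
      intro i
      have h3 := congrFun hv' i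
      rw [Matrix.sub_mulVec] at h3
      have h4 : (Matrix.scalar (Fin w) z *ᵥ v) i = z * v i := by
        rw [Matrix.scalar_apply, Matrix.mulVec_diagonal]
      have h5 : (M.map Complex.ofReal *ᵥ v) i = ∑ j, ((M i j : ℝ) : ℂ) * v j := rfl
      have h6 : (Matrix.scalar (Fin w) z *ᵥ v) i - (M.map Complex.ofReal *ᵥ v) i = 0 := h3
      rw [h4, h5] at h6
      exact (sub_eq_zero.1 h6).symm
    by_contra hne
    refine hC (fun i => (v i).re) (fun i => (v i).im) z.re z.im hne ?_ ?_ ?_
    · by_contra h
      push Not at h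
      apply hv
      funext i
      exact Complex.ext (congrFun h.1 i) (congrFun h.2 i)
    · funext i
      have h3 := congrArg Complex.re (h2 i)
      rw [Complex.re_sum, Complex.mul_re] at h3
      show ∑ j, M i j * (v j).re = z.re * (v i).re - z.im * (v i).im
      rw [← h3]
      refine Finset.sum_congr rfl fun j _ => ?_
      rw [Complex.re_ofReal_mul]
    · funext i
      have h3 := congrArg Complex.im (h2 i)
      rw [Complex.im_sum, Complex.mul_im] at h3
      show ∑ j, M i j * (v j).im = z.im * (v i).re + z.re * (v i).im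
      rw [add_comm, ← h3]
      refine Finset.sum_congr rfl fun j _ => ?_
      rw [Complex.im_ofReal_mul]
  refine ⟨him, fun hder => ?_⟩
  obtain ⟨l, rfl⟩ : ∃ l : ℝ, z = (l : ℂ) := ⟨z.re, Complex.ext rfl (by simpa using him)⟩
  have hl : l ≠ 0 := fun h => hz (by rw [h]; simp)
  have hmap : (M.map Complex.ofReal).charpoly = M.charpoly.map Complex.ofRealHom :=
    Matrix.charpoly_map M Complex.ofRealHom
  have hr1 : M.charpoly.IsRoot l := by
    have h1 : eval (Complex.ofRealHom l) (M.charpoly.map Complex.ofRealHom) = 0 := by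
      rw [← hmap]; exact hroot
    rw [eval_map_apply] at h1
    exact Complex.ofReal_eq_zero.1 h1
  have hr2 : (derivative M.charpoly).IsRoot l := by
    have h1 : eval (Complex.ofRealHom l) ((derivative M.charpoly).map Complex.ofRealHom) = 0 := by
      rw [← derivative_map, ← hmap]; exact hder
    rw [eval_map_apply] at h1
    exact Complex.ofReal_eq_zero.1 h1
  have h0 : M.charpoly ≠ 0 := (Matrix.charpoly_monic M).ne_zero
  have hmult : 1 < M.charpoly.rootMultiplicity l :=
    (one_lt_rootMultiplicity_iff_isRoot h0).2 ⟨hr1, hr2⟩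
  obtain ⟨f, hf⟩ : ∃ f : Module.End ℝ (Fin w → ℝ), f = Matrix.toLin' M := ⟨_, rfl⟩
  have hfM : ∀ x, f x = M *ᵥ x := fun x => by rw [hf]; rfl
  have hfin : 1 < Module.finrank ℝ (f.maxGenEigenspace l) := by
    rw [LinearMap.finrank_maxGenEigenspace_eq, hf, Matrix.charpoly_toLin']
    exact hmult
  by_cases hsub : ∀ x ∈ f.maxGenEigenspace l, f x = l • x
  · have : Nontrivial (f.maxGenEigenspace l) :=
      Module.nontrivial_of_finrank_pos (R := ℝ) (by omega)
    obtain ⟨x, hx⟩ := exists_ne (0 : f.maxGenEigenspace l)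
    obtain ⟨y, hy⟩ := exists_linearIndependent_pair_of_one_lt_finrank hfin hx
    refine hA x.1 y.1 l hl ?_ ((hfM _).symm.trans (hsub x x.2)) ((hfM _).symm.trans (hsub y y.2))
    have h3 := hy.map' (f.maxGenEigenspace l).subtype
      (Submodule.ker_subtype _)
    have h4 : ((f.maxGenEigenspace l).subtype ∘ ![x, y]) = ![x.1, y.1] := by
      ext i
      fin_cases i <;> rfl
    rwa [h4] at h3
  · push Not at hsub
    obtain ⟨x, hx, hne⟩ := hsub
    rw [Module.End.mem_maxGenEigenspace] at hx
    set φ : Module.End ℝ (Fin w → ℝ) := f - l • (1 : Module.End ℝ (Fin w → ℝ)) with hφ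
    classical
    have hn := Nat.find_spec hx
    set n := Nat.find hx with hndef
    have hn2 : 2 ≤ n := by
      by_contra h
      have h3 : n = 0 ∨ n = 1 := by omega
      rcases h3 with h3 | h3
      · rw [h3] at hn
        apply hne
        have hx0 : x = 0 := by simpa using hn
        rw [hx0]; simp
      · rw [h3] at hn
        apply hne
        have h4 : φ x = 0 := by simpa using hn
        rw [hφ, LinearMap.sub_apply, LinearMap.smul_apply, Module.End.one_apply, sub_eq_zero] at h4
        exact h4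
    obtain ⟨k, hk⟩ : ∃ k, n = k + 2 := ⟨n - 2, by omega⟩
    have hmin : (φ ^ (k + 1)) x ≠ 0 := Nat.find_min hx (by omega : k + 1 < Nat.find hx)
    have hz2 : (φ ^ (k + 2)) x = 0 := by rw [← hk]; exact hn
    have e1 : φ ((φ ^ k) x) = (φ ^ (k + 1)) x := by
      rw [pow_succ']; rfl
    have e2 : φ ((φ ^ (k + 1)) x) = (φ ^ (k + 2)) x := by
      rw [pow_succ' φ (k + 1)]; rfl
    have hφa : ∀ u : Fin w → ℝ, M *ᵥ u = l • u + φ u := by
      intro u
      have : φ u = M *ᵥ u - l • u := by rw [← hfM]; rfl
      rw [this]; abel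
    refine hB ((φ ^ (k + 1)) x) ((φ ^ k) x) l hl hmin ?_ ?_
    · rw [hφa, e2, hz2, add_zero]
    · rw [hφa, e1]

end Pool.Agent.V7H85.OK
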