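import Pool.Agent.V7H85.OK.Spec

/-! Assembly. -/

set_option autoImplicit false

namespace Pool.Agent.V7H85.OK

open Polynomial Finset Matrix

/-- piece ZERO -/
def S_ZERO : Prop := ∀ (m c k w : ℕ), 1 ≤ c → c ≤ 2 → 3 ∣ m →
  (∀ i < k, 3 * i + c < m) → (∀ i < w, m ≤ 3 * (k + i) + c) → (∀ i < w, 3 * (k + i) + c < 2 * m) →
  TM m c k w = 0

theorem t_ZERO : S_ZERO := by
  intro m c k w hc1 hc2 h3 h1 h2 h4
  ext i j
  obtain ⟨q, rfl⟩ := h3
  have hi := h2 i i.2
  have hi2 := h4 i i.2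
  -- the index of the node
  have hl : (k + i) - q < k + w := by omega
  have hq : q ≤ k + i := by omega
  have hlk : k + i - q < k := by
    by_contra h
    push Not at h
    have h5 := h2 (i - q) (by omega)
    omega
  have hne : (⟨k + i - q, hl⟩ : Fin (k + w)) ≠ Fin.natAdd k j := by
    intro h
    have h5 := congrArg Fin.val h
    simp only [Fin.val_natAdd] at h5
    omega
  have he : (3 * ((k : ℝ) + (i : ℝ)) + c - ((3 * q : ℕ) : ℝ)) =
      3 * (((⟨k + i - q, hl⟩ : Fin (k + w)) : ℕ) : ℝ) + c := by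
    have : ((k + i - q : ℕ) : ℝ) = (k : ℝ) + i - q := by
      rw [Nat.cast_sub hq]; push_cast; ring
    simp only [this]
    push_cast
    ring
  show _ * _ = (0 : ℝ)
  rw [he]
  exact mul_eq_zero_of_right _ (Lagrange.eval_basis_of_ne
    (v := fun l : Fin (k + w) => 3 * (l : ℝ) + c) hne.symm (Finset.mem_univ _))

theorem eval_det_one_add {w : ℕ} (T : Matrix (Fin w) (Fin w) ℂ) (y : ℂ) (hy : y ≠ 0) :
    (1 + y • T).det = (-y) ^ w * T.charpoly.eval (-y⁻¹) := by
  have h1 : (1 + y • T) = (-y) • (Matrix.scalar (Fin w) (-y⁻¹) - T) := by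
    ext i j
    by_cases h : i = j
    · subst h
      simp
      field_simp
      ring
    · simp [h]
  rw [h1, Matrix.det_smul, Fintype.card_fin, Matrix.eval_charpoly]

theorem key {K mw m : ℕ} {D χ : ℂ[X]} {b : ℂ} (hb : b ≠ 0) (hm : 1 ≤ m)
    (h : D * X ^ mw = C b * X ^ K * χ.comp (-X ^ m)) {z : ℂ} (hz : z ≠ 0) (hD : D.IsRoot z) :
    χ.IsRoot (-z ^ m) ∧ ((derivative D).IsRoot z → (derivative χ).IsRoot (-z ^ m)) := by
  have hzp : ∀ n : ℕ, z ^ n ≠ 0 := fun n => pow_ne_zero n hz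
  have h1 : χ.IsRoot (-z ^ m) := by
    have h2 := congrArg (eval z) h
    simp only [eval_mul, eval_pow, eval_X, eval_C, eval_comp, eval_neg] at h2
    rw [hD.eq_zero, zero_mul] at h2
    have h3 := h2.symm
    rcases mul_eq_zero.1 h3 with h4 | h4
    · exact absurd h4 (mul_ne_zero hb (hzp K))
    · exact h4
  refine ⟨h1, fun hD' => ?_⟩
  have h2 := congrArg (fun p => eval z (derivative p)) h
  simp only [derivative_mul, eval_add, eval_mul, derivative_C, eval_pow, eval_X, eval_C,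
    derivative_comp, eval_comp, eval_neg, zero_mul, derivative_neg, derivative_X_pow] at h2
  rw [hD.eq_zero, hD'.eq_zero] at h2
  have h5 : eval (-z ^ m) χ = 0 := h1
  rw [h5] at h2
  simp only [zero_mul, mul_zero, zero_add, add_zero, eval_zero] at h2
  have h3 := h2.symm
  rcases mul_eq_zero.1 h3 with h4 | h4
  · exact absurd h4 (mul_ne_zero hb (hzp K))
  · rcases mul_eq_zero.1 h4 with h6 | h6
    · exfalso
      have h7 : (m : ℂ) * z ^ (m - 1) ≠ 0 := mul_ne_zero (by
        have : m ≠ 0 := by omega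
        exact_mod_cast this) (hzp _)
      exact h7 (neg_eq_zero.1 h6)
    · exact h6

/-- the main statement from the pieces -/
theorem main (hD1 : S_DET1) (hD2 : S_DET2)
    (hM : ∀ (m c k w : ℕ), 1 ≤ c → c ≤ 2 → ¬ 3 ∣ m → (∀ i < k, 3 * i + c < m) →
      (∀ i < w, m ≤ 3 * (k + i) + c) → (∀ i < w, 3 * (k + i) + c < 2 * m) → Mono (TM m c k w))
    (hS : ∀ (w : ℕ) (M : Matrix (Fin w) (Fin w) ℝ), Mono M → ∀ z : ℂ, z ≠ 0 →
      (M.map Complex.ofReal).charpoly.IsRoot z →
        z.im = 0 ∧ ¬ (derivative (M.map Complex.ofReal).charpoly).IsRoot z)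
    (m c N : ℕ) (hm : 2 ≤ m) (hc1 : 1 ≤ c) (hc2 : c ≤ 2) (hN : 3 * N + c < 2 * m + 3) (z : ℂ)
    (hz : z ≠ 0) (hroot : (PM m c N).det.IsRoot z) :
    (PM m c N).det.rootMultiplicity z = 1 ∧ (z ^ m).im = 0 := by
  obtain ⟨k, w, rfl, h1, h2⟩ : ∃ k w : ℕ, N = k + w ∧ (∀ i < k, 3 * i + c < m) ∧
      (∀ i < w, m ≤ 3 * (k + i) + c) := by
    refine ⟨min N ((m - c + 2) / 3), N - min N ((m - c + 2) / 3), by omega, ?_, ?_⟩
    · intro i hi
      omega
    · intro i hi
      omega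
  have h3 : ∀ i < w, 3 * (k + i) + c < 2 * m := by
    intro i hi
    omega
  have h3' : ∀ i < k + w, 3 * i + c < 2 * m := by
    intro i hi
    omega
  obtain ⟨B, hB, hB'⟩ := hD1 m c k w h1 h2
  obtain ⟨K, hK⟩ := hD2 m c (k + w) (by omega) h3'
  set T := (TM m c k w).map Complex.ofReal with hT
  set D := (PM m c (k + w)).det with hDdef
  have hpt : ∀ x : ℂ, x ≠ 0 → D.eval x * x ^ (m * w) =
      (B * (-1) ^ w) * x ^ K * T.charpoly.eval (-x ^ m) := by
    intro x hx
    have hxm : x ^ m ≠ 0 := pow_ne_zero m hx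
    rw [hK x hx, hB', eval_det_one_add T _ (inv_ne_zero hxm), inv_inv, pow_mul]
    have h4 : (-(x ^ m)⁻¹) ^ w * (x ^ m) ^ w = (-1) ^ w := by
      rw [← mul_pow, neg_mul, inv_mul_cancel₀ hxm]
    linear_combination (x ^ K * B * T.charpoly.eval (-x ^ m)) * h4
  have hpoly : D * X ^ (m * w) = C (B * (-1) ^ w) * X ^ K * T.charpoly.comp (-X ^ m) := by
    have h4 : X * (D * X ^ (m * w)) = X * (C (B * (-1) ^ w) * X ^ K * T.charpoly.comp (-X ^ m)) := by
      refine Polynomial.funext fun x => ?_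
      by_cases hx : x = 0
      · subst hx
        simp only [eval_mul, eval_X, zero_mul]
      · simp only [eval_mul, eval_pow, eval_X, eval_C, eval_comp, eval_neg]
        rw [hpt x hx]
    exact mul_left_cancel₀ X_ne_zero h4
  have hb : B * (-1) ^ w ≠ 0 := mul_ne_zero hB (pow_ne_zero _ (by norm_num))
  have hkey := key hb (by omega : 1 ≤ m) hpoly hz hroot
  have hzm : -z ^ m ≠ 0 := neg_ne_zero.2 (pow_ne_zero m hz)
  by_cases h3m : 3 ∣ m
  · exfalso
    have h5 := hkey.1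
    rw [hT, t_ZERO m c k w hc1 hc2 h3m h1 h2 h3] at h5
    have h6 : ((0 : Matrix (Fin w) (Fin w) ℝ).map Complex.ofReal) = 0 := by
      ext i j
      simp
    rw [h6, Matrix.charpoly_zero, Fintype.card_fin] at h5
    have h7 : (-z ^ m) ^ w = 0 := by
      have := h5.eq_zero
      simpa using this
    exact pow_ne_zero w hzm h7
  · have h5 := hS w (TM m c k w) (hM m c k w hc1 hc2 h3m h1 h2 h3) (-z ^ m) hzm hkey.1
    have h6 : ¬ (derivative D).IsRoot z := fun h => h5.2 (hkey.2 h)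
    have hD0 : D ≠ 0 := by
      intro h
      apply h6
      rw [h, derivative_zero]
      exact Polynomial.IsRoot.def.2 eval_zero
    refine ⟨?_, ?_⟩
    · have h7 : 0 < D.rootMultiplicity z := (rootMultiplicity_pos hD0).2 hroot
      have h8 : ¬ 1 < D.rootMultiplicity z := fun h =>
        h6 ((one_lt_rootMultiplicity_iff_isRoot hD0).1 h).2
      omega
    · have := h5.1
      simpa using this

end Pool.Agent.V7H85.OK
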